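import Pool.Agent.TH521.AlgDeg4
import Pool.Agent.TH521.AlgDeg6
set_option autoImplicit false

/-!
# Diagonal Ramsey numbers of colourings of bounded algebraic degree

The vertices of `K_N`, `N = 2 ^ n`, are the vectors of `F_2 ^ n`.  A graph (two-colouring) is
*computed* by `s` polynomials over `F_2` in the `2 n` coordinates of two vertices if the colour of a
pair is a function of the values of these polynomials.  The theorem below gives upper and lower
bounds for the Ramsey numbers of the colourings computed by polynomials of degree at most `D`.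
-/

namespace Pool.Agent.Results.MP_28724c_co.AlgebraicDegree

open MvPolynomial Finset

/-- `G` has a clique or an independent set with `k` vertices. -/
def HasHomog {V : Type} (G : SimpleGraph V) (k : ℕ) : Prop :=
  ∃ K : Finset V, K.card = k ∧ (G.IsClique (K : Set V) ∨ G.IsIndepSet (K : Set V))

/-- `G` is computed by `s` polynomials of degree at most `D`: there is an orientation `T` of the
complete graph (for example a linear order of the vertices) such that for the pairs `(x, y)` with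
`T x y` the adjacency of `x` and `y` depends only on the values at `(x, y)` of `s` polynomials
over `F_2` of total degree at most `D` in `2 n` variables. -/
def Computed (n s D : ℕ) (G : SimpleGraph (Fin n → ZMod 2)) : Prop :=
  ∃ (T : (Fin n → ZMod 2) → (Fin n → ZMod 2) → Prop)
    (P : Fin s → MvPolynomial (Fin n ⊕ Fin n) (ZMod 2)),
    (∀ x y, x ≠ y → T x y ∨ T y x) ∧ (∀ j, (P j).totalDegree ≤ D) ∧
    ∀ x y x' y', x ≠ y → x' ≠ y' → T x y → T x' y' →
      (∀ j, eval (Sum.elim x y) (P j) = eval (Sum.elim x' y') (P j)) →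
      (G.Adj x y ↔ G.Adj x' y')

/-- Every graph on `2 ^ n` vertices computed by `s` polynomials of degree at most `D` has a
clique or an independent set of size `k`. -/
def Forced (n s D k : ℕ) : Prop :=
  ∀ G : SimpleGraph (Fin n → ZMod 2), Computed n s D G → HasHomog G k

theorem HasHomog.mono {V : Type} {G : SimpleGraph V} {k k' : ℕ} (h : k ≤ k')
    (hG : HasHomog G k') : HasHomog G k := by
  obtain ⟨K, hK, hh⟩ := hG
  obtain ⟨K', hK', hc⟩ := exists_subset_card_eq (hK ▸ h : k ≤ K.card)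
  refine ⟨K', hc, ?_⟩
  have hsub : (K' : Set V) ⊆ K := by exact_mod_cast hK'
  rcases hh with h1 | h1
  · exact Or.inl (Set.Pairwise.mono hsub h1)
  · exact Or.inr (Set.Pairwise.mono hsub h1)

/-- the subspace form of the upper bound -/
theorem upper_subspace (n s D t : ℕ)
    (hn : t + 3 * s * ∑ i ∈ range D, (2 * t - 2).choose i * (D - i) ≤ n)
    (G : SimpleGraph (Fin n → ZMod 2)) (hG : Computed n s D G) :
    ∃ U : Submodule (ZMod 2) (Fin n → ZMod 2), Module.finrank (ZMod 2) U = t ∧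
      (G.IsClique (U : Set (Fin n → ZMod 2)) ∨ G.IsIndepSet (U : Set (Fin n → ZMod 2))) := by
  classical
  obtain ⟨T, P, hT, hPd, hcol⟩ := hG
  rw [← TH521.AlgDeg.Nm_eq] at hn
  obtain ⟨l, hl, hcard, hc⟩ := TH521.AlgDeg.greedy n s D
    (fun j p => eval (Sum.elim p.1 p.2) (P j)) (by
      intro j
      exact (TH521.AlgDeg.degLE_eval (P j) D (hPd j)).comp
        (fun p : (Fin n → ZMod 2) × (Fin n → ZMod 2) => Sum.elim p.1 p.2)
        (fun p => Sum.elim p.1 p.2) (by
          intro p q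
          funext i
          rcases i with i | i <;> simp)) t (Or.inr hn)
  let U : Submodule (ZMod 2) (Fin n → ZMod 2) :=
    { carrier := (TH521.AlgDeg.SS l : Set (Fin n → ZMod 2))
      add_mem' := by
        intro a b ha hb
        exact_mod_cast TH521.AlgDeg.SS_add TH521.AlgDeg.char_two l a (by exact_mod_cast ha) b
          (by exact_mod_cast hb)
      zero_mem' := by exact_mod_cast TH521.AlgDeg.zero_mem_SS l
      smul_mem' := by
        intro c x hx
        have hc : c = 0 ∨ c = 1 := by revert c; decide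
        rcases hc with rfl | rfl
        · rw [zero_smul]; exact_mod_cast TH521.AlgDeg.zero_mem_SS l
        · rw [one_smul]; exact hx }
  have hU : ∀ x, x ∈ U ↔ x ∈ TH521.AlgDeg.SS l := fun x => Iff.rfl
  refine ⟨U, ?_, ?_⟩
  · have h1 : Nat.card U = 2 ^ t := by
      rw [← hcard, ← Nat.card_eq_fintype_card (α := {x // x ∈ TH521.AlgDeg.SS l}) |>.trans
        (Fintype.card_coe _)]
      exact Nat.card_congr (Equiv.subtypeEquivRight fun x => hU x)
    have h2 := Module.card_eq_pow_finrank (K := ZMod 2) (V := U)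
    rw [← Nat.card_eq_fintype_card, h1, ZMod.card] at h2
    exact (Nat.pow_right_injective (le_refl 2) h2).symm
  · -- all pairs have the same colour
    by_cases hex : ∃ x y, x ∈ U ∧ y ∈ U ∧ x ≠ y ∧ T x y ∧ G.Adj x y
    · left
      obtain ⟨x0, y0, hx0, hy0, hne0, hT0, hA0⟩ := hex
      intro x hx y hy hne
      rcases hT x y hne with h | h
      · refine (hcol x0 y0 x y hne0 hne hT0 h fun j => ?_).1 hA0
        exact (hc j x0 hx0 y0 hy0).trans (hc j x hx y hy).symm
      · refine ((hcol x0 y0 y x hne0 hne.symm hT0 h fun j => ?_).1 hA0).symm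
        exact (hc j x0 hx0 y0 hy0).trans (hc j y hy x hx).symm
    · right
      push Not at hex
      intro x hx y hy hne
      rcases hT x y hne with h | h
      · exact hex x y hx hy hne h
      · intro hA
        exact hex y x hy hx hne.symm h hA.symm

theorem forced_of_subspace (n s D k : ℕ)
    (hn : Nat.clog 2 k + 3 * s * TH521.AlgDeg.Nm (2 * Nat.clog 2 k - 2) D ≤ n) :
    Forced n s D k := by
  classical
  intro G hG
  rw [TH521.AlgDeg.Nm_eq] at hn
  obtain ⟨U, hU, hh⟩ := upper_subspace n s D _ hn G hG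
  have hle : k ≤ 2 ^ Nat.clog 2 k := Nat.le_pow_clog (by norm_num) k
  refine HasHomog.mono hle ?_
  have hfin : (U : Set (Fin n → ZMod 2)).Finite := Set.toFinite _
  refine ⟨hfin.toFinset, ?_, ?_⟩
  · have h2 := Module.card_eq_pow_finrank (K := ZMod 2) (V := U)
    rw [hU, ZMod.card] at h2
    rw [← h2, ← Set.ncard_eq_toFinset_card _ hfin, ← Nat.card_eq_fintype_card]
    rfl
  · rw [hfin.coe_toFinset]
    exact hh

/-- the lower bound -/
theorem lower (n k D : ℕ) (hk : 2 ≤ k)
    (hn : 2 * n + 1 ≤ ((range k).filter (fun x => (Nat.digits 2 x).sum ≤ D / 2)).card) :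
    ∃ (G : SimpleGraph (Fin n → ZMod 2)) (P : MvPolynomial (Fin n ⊕ Fin n) (ZMod 2)),
      P.totalDegree ≤ D ∧ (∀ x y, x ≠ y → (G.Adj x y ↔ eval (Sum.elim x y) P = 1)) ∧
      ¬ HasHomog G k := by
  classical
  have hGs : ((range k).filter (fun x => (Nat.digits 2 x).sum ≤ D / 2)).card =
      TH521.AlgDeg.Gs k (D / 2 + 1) := by
    unfold TH521.AlgDeg.Gs TH521.AlgDeg.pop
    congr 1
    ext x
    simp only [mem_filter, Nat.lt_succ_iff]
  rw [hGs] at hn
  rcases Nat.eq_zero_or_pos n with rfl | hn0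
  · refine ⟨⊥, 0, by simp, ?_, ?_⟩
    · intro x y hxy
      exact absurd (Subsingleton.elim x y) hxy
    · rintro ⟨K, hK, _⟩
      have : K.card ≤ 1 := by
        rw [card_le_one]
        intro a _ b _
        exact Subsingleton.elim _ _
      omega
  have hcardV : Fintype.card (Fin n → ZMod 2) = 2 ^ n := by simp [ZMod.card]
  let b : Fin (2 ^ n) ≃ (Fin n → ZMod 2) := (Fintype.equivFinOfCardEq hcardV).symm
  obtain ⟨P, hPd, hPs, hP⟩ := TH521.AlgDeg.lower2 n k (D / 2) D (by omega) (by omega) hn b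
    b.injective
  let G : SimpleGraph (Fin n → ZMod 2) :=
    { Adj := fun x y => x ≠ y ∧ eval (Sum.elim x y) P = 1
      symm := ⟨by
        rintro x y ⟨h1, h2⟩
        exact ⟨h1.symm, by rw [hPs]; exact h2⟩⟩
      loopless := ⟨fun x h => h.1 rfl⟩ }
  refine ⟨G, P, hPd, fun x y hxy => ⟨fun h => h.2, fun h => ⟨hxy, h⟩⟩, ?_⟩
  rintro ⟨K, hK, hh⟩
  have hKc : (K.map b.symm.toEmbedding).card = k := by rw [card_map, hK]
  have hmem : ∀ x, x ∈ K.map b.symm.toEmbedding → b x ∈ K := by
    intro x hx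
    obtain ⟨z, hz, rfl⟩ := mem_map.1 hx
    simpa using hz
  rcases hh with h1 | h1
  · obtain ⟨x, hx, y, hy, hne, he⟩ := hP _ hKc 1
    have := h1 (hmem x hx) (hmem y hy) (fun h => hne (b.injective h))
    exact he this.2
  · obtain ⟨x, hx, y, hy, hne, he⟩ := hP _ hKc 0
    have hne' : b x ≠ b y := fun h => hne (b.injective h)
    have := h1 (hmem x hx) (hmem y hy) hne'
    apply this
    exact ⟨hne', TH521.AlgDeg.zmod2_ne_zero he⟩

theorem computed_of_poly (n D : ℕ) (G : SimpleGraph (Fin n → ZMod 2))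
    (P : MvPolynomial (Fin n ⊕ Fin n) (ZMod 2)) (hP : P.totalDegree ≤ D)
    (h : ∀ x y, x ≠ y → (G.Adj x y ↔ eval (Sum.elim x y) P = 1)) : Computed n 1 D G := by
  refine ⟨fun _ _ => True, fun _ => P, fun _ _ _ => Or.inl trivial, fun _ => hP, ?_⟩
  intro x y x' y' h1 h2 _ _ he
  rw [h x y h1, h x' y' h2, he 0]

theorem not_forced (n k D : ℕ) (hk : 2 ≤ k) (hn : 2 * n + 1 ≤ TH521.AlgDeg.Gs k (D / 2 + 1)) :
    ¬ Forced n 1 D k := by
  intro hF
  have hGs : ((range k).filter (fun x => (Nat.digits 2 x).sum ≤ D / 2)).card =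
      TH521.AlgDeg.Gs k (D / 2 + 1) := by
    unfold TH521.AlgDeg.Gs TH521.AlgDeg.pop
    congr 1
    ext x
    simp only [mem_filter, Nat.lt_succ_iff]
  obtain ⟨G, P, hPd, hP, hno⟩ := lower n k D hk (by rw [hGs]; exact hn)
  exact hno (hF G (computed_of_poly n D G P hPd hP))

/-- **Ramsey numbers of colourings of algebraic degree `D`.**

(1) Upper bound.  If `t + 3 s ∑_{i < D} C(2t-2, i) (D - i) ≤ n`, every graph on
`F_2 ^ n` computed by `s` polynomials of degree at most `D` has a linear subspace of dimension `t`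
which is a clique or an independent set.
(2) Lower bound.  If `2 n + 1` is at most the number of integers in `[0, k)` with binary digit sum
at most `D / 2`, some graph on `F_2 ^ n` given by one polynomial of degree at most `D` (read in
any order of the two vertices) has neither a clique nor an independent set of size `k`.
(3) Fixed degree `D ≥ 2`: the logarithm of the Ramsey number is between
`c (log k) ^ ⌊D/2⌋` and `C (log k) ^ (D - 1)`.
(4) The logarithm of the Ramsey number is `k ^ o(1)` if and only if `D = o(log k)`.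
(5) Degree `(1/5) log₂ k` is not enough for exponential growth: the logarithm of the Ramsey number
is at most `k ^ 0.96`; degree `(1 + η) log₂ k` is enough: it is at least `(1 - η) (k/2) log 2 - O(1)`,
as for all colourings in Erdős' bound. -/
theorem result :
    (∀ n s D t : ℕ, t + 3 * s * ∑ i ∈ range D, (2 * t - 2).choose i * (D - i) ≤ n →
      ∀ G : SimpleGraph (Fin n → ZMod 2), Computed n s D G →
        ∃ U : Submodule (ZMod 2) (Fin n → ZMod 2), Module.finrank (ZMod 2) U = t ∧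
          (G.IsClique (U : Set (Fin n → ZMod 2)) ∨ G.IsIndepSet (U : Set (Fin n → ZMod 2)))) ∧
    (∀ n k D : ℕ, 2 ≤ k →
      2 * n + 1 ≤ ((range k).filter (fun x => (Nat.digits 2 x).sum ≤ D / 2)).card →
      ∃ (G : SimpleGraph (Fin n → ZMod 2)) (P : MvPolynomial (Fin n ⊕ Fin n) (ZMod 2)),
        P.totalDegree ≤ D ∧ (∀ x y, x ≠ y → (G.Adj x y ↔ eval (Sum.elim x y) P = 1)) ∧
        ¬ HasHomog G k) ∧
    (∀ D : ℕ, 2 ≤ D →
      (∃ c : ℝ, 0 < c ∧ ∀ k : ℕ, 2 ≤ k → ∀ n : ℕ,
        (n : ℝ) ≤ c * Real.log k ^ (D / 2) → ¬ Forced n 1 D k) ∧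
      (∀ s : ℕ, ∃ C : ℝ, 0 < C ∧ ∀ k : ℕ, 2 ≤ k → ∀ n : ℕ,
        C * Real.log k ^ (D - 1) ≤ n → Forced n s D k)) ∧
    ((∀ ε : ℝ, 0 < ε → ∃ δ : ℝ, 0 < δ ∧ ∃ k0 : ℕ, ∀ k : ℕ, k0 ≤ k → ∀ n s D : ℕ,
        (D : ℝ) ≤ δ * Real.log k → (s : ℝ) ≤ (k : ℝ) ^ δ → (k : ℝ) ^ ε ≤ n → Forced n s D k) ∧
      (∀ δ : ℝ, 0 < δ → ∃ ε : ℝ, 0 < ε ∧ ∃ k0 : ℕ, ∀ k : ℕ, k0 ≤ k → ∀ n D : ℕ,
        δ * Real.log k ≤ D → (n : ℝ) ≤ (k : ℝ) ^ ε → ¬ Forced n 1 D k)) ∧
    ((∃ k0 : ℕ, ∀ k : ℕ, k0 ≤ k → ∀ n s D : ℕ,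
        (D : ℝ) ≤ 1 / 5 * (Real.log k / Real.log 2) → (s : ℝ) ≤ (k : ℝ) ^ (1 / 100 : ℝ) →
        (k : ℝ) ^ (96 / 100 : ℝ) ≤ n → Forced n s D k) ∧
      (∀ η : ℝ, 0 < η → η < 1 → ∃ k0 : ℕ, ∀ k : ℕ, k0 ≤ k → ∀ n D : ℕ,
        (1 + η) * (Real.log k / Real.log 2) ≤ D → (n : ℝ) ≤ (1 - η) * k / 2 →
        ¬ Forced n 1 D k)) := by
  have hl2 : 0 < Real.log 2 := Real.log_pos (by norm_num)
  have hl2' : 1 / 2 < Real.log 2 := by have := Real.log_two_gt_d9; linarith
  refine ⟨upper_subspace, lower, ?_, ⟨?_, ?_⟩, ⟨?_, ?_⟩⟩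
  · intro D hD
    refine ⟨?_, ?_⟩
    · obtain ⟨c, hc, h⟩ := TH521.AlgDeg.low_fixed (D / 2) (by omega)
      exact ⟨c, hc, fun k hk n hn => not_forced n k D hk (h k hk n hn)⟩
    · intro s
      obtain ⟨E, rfl⟩ : ∃ E, D = E + 1 + 1 := ⟨D - 2, by omega⟩
      have e1 : E + 1 + 1 - 1 = E + 1 := by omega
      rw [e1]
      refine ⟨(2 + 3 * s * (E + 2) * 3 ^ (E + 1)) / Real.log 2 ^ (E + 1), by positivity,
        fun k hk n hn => ?_⟩
      apply forced_of_subspace n s (E + 1 + 1) k
      have hkR : (2 : ℝ) ≤ k := by exact_mod_cast hk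
      set t := Nat.clog 2 k with ht
      have ht1 : 1 ≤ t := Nat.clog_pos (by norm_num) hk
      have htle := TH521.AlgDeg.clog_le k hk
      rw [← ht] at htle
      set L := Real.log k / Real.log 2 with hL
      have hL1 : 1 ≤ L := by
        rw [hL, le_div_iff₀ hl2, one_mul]
        exact Real.log_le_log (by norm_num) hkR
      have hNm := TH521.AlgDeg.Nm_poly (2 * t - 2) (E + 1)
      have hNmR : (TH521.AlgDeg.Nm (2 * t - 2) (E + 1 + 1) : ℝ) ≤ (E + 2) * (3 * L) ^ (E + 1) := by
        have h1 : (TH521.AlgDeg.Nm (2 * t - 2) (E + 1 + 1) : ℝ) ≤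
            (((E + 1 + 1) * (2 * t - 2 + 1) ^ (E + 1) : ℕ) : ℝ) := by exact_mod_cast hNm
        refine h1.trans ?_
        rw [Nat.cast_mul, Nat.cast_pow]
        have h2 : ((2 * t - 2 + 1 : ℕ) : ℝ) ≤ 3 * L := by
          have h3 : 2 * t - 2 + 1 = 2 * t - 1 := by omega
          rw [h3, Nat.cast_sub (by omega)]
          push_cast
          linarith
        have h4 : ((2 * t - 2 + 1 : ℕ) : ℝ) ^ (E + 1) ≤ (3 * L) ^ (E + 1) :=
          pow_le_pow_left₀ (Nat.cast_nonneg _) h2 _
        have h5 : ((E + 1 + 1 : ℕ) : ℝ) = E + 2 := by push_cast; ring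
        rw [h5]
        exact mul_le_mul_of_nonneg_left h4 (by positivity)
      have hLp : L ≤ L ^ (E + 1) := by
        calc L = L ^ 1 := (pow_one L).symm
          _ ≤ L ^ (E + 1) := pow_le_pow_right₀ hL1 (by omega)
      have htot : (t : ℝ) + 3 * s * TH521.AlgDeg.Nm (2 * t - 2) (E + 1 + 1) ≤ n := by
        calc (t : ℝ) + 3 * s * TH521.AlgDeg.Nm (2 * t - 2) (E + 1 + 1)
            ≤ 2 * L ^ (E + 1) + 3 * s * ((E + 2) * (3 * L) ^ (E + 1)) := by
              have h1 : (t : ℝ) ≤ 2 * L ^ (E + 1) := by linarith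
              have h2 : (3 : ℝ) * s * TH521.AlgDeg.Nm (2 * t - 2) (E + 1 + 1) ≤
                  3 * s * ((E + 2) * (3 * L) ^ (E + 1)) :=
                mul_le_mul_of_nonneg_left hNmR (by positivity)
              linarith
          _ = (2 + 3 * s * (E + 2) * 3 ^ (E + 1)) / Real.log 2 ^ (E + 1) *
              Real.log k ^ (E + 1) := by
              rw [hL, mul_pow, div_pow]
              field_simp
          _ ≤ n := hn
      exact_mod_cast htot
  · -- small exponent
    intro ε hε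
    set q : ℝ := 1 + 12 / ε with hq
    have hq1 : 1 ≤ q := by
      have : 0 < 12 / ε := by positivity
      linarith
    have hq0 : 0 < q := by linarith
    have hlq : 0 ≤ Real.log q := Real.log_nonneg hq1
    set δ : ℝ := ε / (4 * (1 + Real.log q)) with hδ
    have hδ0 : 0 < δ := by positivity
    have h1 : δ * (1 + Real.log q) = ε / 4 := by
      rw [hδ]; field_simp
    have h2 : 2 * Real.log (1 + 1 / q) / Real.log 2 ≤ ε / 3 := by
      have h3 : Real.log (1 + 1 / q) ≤ 1 / q := by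
        have := Real.log_le_sub_one_of_pos (show 0 < 1 + 1 / q by positivity)
        linarith
      have h4 : 1 / q ≤ ε / 12 := by
        rw [div_le_div_iff₀ hq0 (by norm_num)]
        have : ε * q = ε + 12 := by rw [hq]; field_simp
        linarith
      rw [div_le_iff₀ hl2]
      nlinarith
    obtain ⟨k0, hk0, h⟩ := TH521.AlgDeg.up_asym q δ δ ε hq1 hδ0.le hδ0.le (by
      nlinarith)
    refine ⟨δ, hδ0, k0, fun k hk n s D hD hs hn => ?_⟩
    exact forced_of_subspace n s D k (h k hk s D n hD hs hn)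
  · intro δ hδ
    obtain ⟨ε, hε, k0, hk0, h⟩ := TH521.AlgDeg.low_pow δ hδ
    exact ⟨ε, hε, k0, fun k hk n D hD hn => not_forced n k D (hk0.trans hk) (h k hk D n hD hn)⟩
  · -- degree one fifth of the logarithm
    have hnum : 1 / 100 + 2 * Real.log (1 + 1 / 9) / Real.log 2 +
        1 / 5 / Real.log 2 * Real.log 9 < 96 / 100 := by
      have h1 : 100 * Real.log (10 / 9) + 10 * Real.log 9 ≤ 47 * Real.log 2 := by
        have h2 : (10 / 9 : ℝ) ^ 100 * 9 ^ 10 ≤ 2 ^ 47 := by norm_num
        have h3 := Real.log_le_log (by positivity) h2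
        rw [Real.log_mul (by positivity) (by positivity), Real.log_pow, Real.log_pow,
          Real.log_pow] at h3
        exact_mod_cast h3
      have h4 : (1 + 1 / 9 : ℝ) = 10 / 9 := by norm_num
      rw [h4]
      have h5 : 2 * Real.log (10 / 9) / Real.log 2 + 1 / 5 / Real.log 2 * Real.log 9 =
          (2 * Real.log (10 / 9) + 1 / 5 * Real.log 9) / Real.log 2 := by ring
      have h6 : (2 * Real.log (10 / 9) + 1 / 5 * Real.log 9) / Real.log 2 ≤ 94 / 100 := by
        rw [div_le_iff₀ hl2]; linarith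
      linarith
    obtain ⟨k0, hk0, h⟩ := TH521.AlgDeg.up_asym 9 (1 / 5 / Real.log 2) (1 / 100) (96 / 100)
      (by norm_num) (by positivity) (by norm_num) hnum
    refine ⟨k0, fun k hk n s D hD hs hn => ?_⟩
    refine forced_of_subspace n s D k (h k hk s D n ?_ hs hn)
    have : 1 / 5 / Real.log 2 * Real.log k = 1 / 5 * (Real.log k / Real.log 2) := by ring
    rw [this]; exact hD
  · intro η hη hη1
    obtain ⟨k0, hk0, h⟩ := TH521.AlgDeg.low_exp η hη hη1
    exact ⟨k0, fun k hk n D hD hn => not_forced n k D (hk0.trans hk) (h k hk D n hD hn)⟩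

end Pool.Agent.Results.MP_28724c_co.AlgebraicDegree
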