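import Pool.Agent.TH521.AlgDeg4
import Pool.Agent.TH521.AlgDeg5
import Pool.Agent.TH521.Circ1
import Pool.Agent.TH521.Circ2
set_option autoImplicit false

/-!
# Diagonal Ramsey numbers and the circuit complexity of the colouring

The vertices of `K_N`, `N = 2 ^ n`, are the binary words of length `n`.  We bound the Ramsey numbers
of the colourings whose colour (as a function of the `2 n` bits of a pair) is computed by circuits
with few NOT gates, is a function of few monotone functions, or has certificates of small size for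
one of the two colours (also with parity queries).
-/

namespace Pool.Agent.Results.MP_28724c_co.CircuitComplexity

open Finset TH521.Circ

/-- `G` has a clique or an independent set with `k` vertices. -/
def HasHomog {V : Type} (G : SimpleGraph V) (k : ℕ) : Prop :=
  ∃ K : Finset V, K.card = k ∧ (G.IsClique (K : Set V) ∨ G.IsIndepSet (K : Set V))

/-- The adjacency in `G` is computed by a Boolean circuit with (unlimited AND and OR gates and) at
most `r` NOT gates, reading the words `x`, `y` with `T x y`, for some orientation `T` of the complete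
graph (for example a linear order). -/
def ByNegations (n r : ℕ) (G : SimpleGraph (Fin n → Bool)) : Prop :=
  ∃ (T : (Fin n → Bool) → (Fin n → Bool) → Prop) (f : (Fin n → Bool) × (Fin n → Bool) → Bool),
    (∀ x y, x ≠ y → T x y ∨ T y x) ∧ WithNegations r f ∧
    ∀ x y, x ≠ y → T x y → (G.Adj x y ↔ f (x, y) = true)

/-- For the pairs `(x, y)` with `T x y`, `T` some orientation, the adjacency depends only on the
values at `(x, y)` of `s` monotone Boolean functions. -/
def ByMonotone (n s : ℕ) (G : SimpleGraph (Fin n → Bool)) : Prop :=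
  ∃ (T : (Fin n → Bool) → (Fin n → Bool) → Prop)
    (f : Fin s → (Fin n → Bool) × (Fin n → Bool) → Bool),
    (∀ x y, x ≠ y → T x y ∨ T y x) ∧ (∀ j, Monotone (f j)) ∧
    ∀ x y x' y', x ≠ y → x' ≠ y' → T x y → T x' y' → (∀ j, f j (x, y) = f j (x', y')) →
      (G.Adj x y ↔ G.Adj x' y')

theorem HasHomog.of_card {V : Type} {G : SimpleGraph V} {k : ℕ} (K : Finset V) (hk : k ≤ K.card)
    (h : G.IsClique (K : Set V) ∨ G.IsIndepSet (K : Set V)) : HasHomog G k := by
  obtain ⟨K', hK', hc⟩ := exists_subset_card_eq hk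
  refine ⟨K', hc, ?_⟩
  have hsub : (K' : Set V) ⊆ K := by exact_mod_cast hK'
  rcases h with h1 | h1
  · exact Or.inl (Set.Pairwise.mono hsub h1)
  · exact Or.inr (Set.Pairwise.mono hsub h1)

/-- one colour on all oriented pairs of a set -/
theorem homog_of_const {V : Type} (G : SimpleGraph V) (T : V → V → Prop)
    (hT : ∀ x y, x ≠ y → T x y ∨ T y x) (I : Finset V)
    (hI : ∀ x ∈ I, ∀ y ∈ I, ∀ x' ∈ I, ∀ y' ∈ I, x ≠ y → x' ≠ y' → T x y → T x' y' →
      (G.Adj x y ↔ G.Adj x' y')) :
    G.IsClique (I : Set V) ∨ G.IsIndepSet (I : Set V) := by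
  classical
  by_cases hex : ∃ x ∈ I, ∃ y ∈ I, x ≠ y ∧ T x y ∧ G.Adj x y
  · left
    obtain ⟨x0, hx0, y0, hy0, hne0, hT0, hA0⟩ := hex
    intro x hx y hy hne
    rcases hT x y hne with h | h
    · exact (hI x0 hx0 y0 hy0 x hx y hy hne0 hne hT0 h).1 hA0
    · exact ((hI x0 hx0 y0 hy0 y hy x hx hne0 hne.symm hT0 h).1 hA0).symm
  · right
    push Not at hex
    intro x hx y hy hne
    rcases hT x y hne with h | h
    · exact hex x hx y hy hne h
    · intro hA
      exact hex y hy x hx hne.symm h hA.symm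

theorem monotone_upper (n s k : ℕ) (hn : (s + 1) * Nat.clog 2 k ≤ n)
    (G : SimpleGraph (Fin n → Bool)) (hG : ByMonotone n s G) : HasHomog G k := by
  obtain ⟨T, f, hT, hf, hc⟩ := hG
  obtain ⟨I, hI, hI2⟩ := chain n (Nat.clog 2 k) (Fin s) f hf (by rwa [Fintype.card_fin])
  have hle : k ≤ 2 ^ Nat.clog 2 k := Nat.le_pow_clog (by norm_num) k
  refine HasHomog.of_card I (hle.trans hI) (homog_of_const G T hT I ?_)
  intro x hx y hy x' hx' y' hy' h1 h2 h3 h4
  exact hc x y x' y' h1 h2 h3 h4 fun j => hI2 j x hx y hy x' hx' y' hy'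

theorem negations_upper (n r k : ℕ) (hn : 2 ^ (r + 1) * Nat.clog 2 k ≤ n)
    (G : SimpleGraph (Fin n → Bool)) (hG : ByNegations n r G) : HasHomog G k := by
  obtain ⟨T, f, hT, hf, hc⟩ := hG
  obtain ⟨I, hI, hI2⟩ := chain_neg n (Nat.clog 2 k) r f hf hn
  have hle : k ≤ 2 ^ Nat.clog 2 k := Nat.le_pow_clog (by norm_num) k
  refine HasHomog.of_card I (hle.trans hI) (homog_of_const G T hT I ?_)
  intro x hx y hy x' hx' y' hy' h1 h2 h3 h4
  rw [hc x y h1 h3, hc x' y' h2 h4, hI2 x hx y hy x' hx' y' hy']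

theorem certified_upper (n w k : ℕ) (hn : 2 * (w + 1) * Nat.clog 2 k ≤ n)
    (G : SimpleGraph (Fin n → ZMod 2)) (hG : Certified w G ∨ Certified w Gᶜ) : HasHomog G k := by
  classical
  set t := Nat.clog 2 k with ht
  have hle : k ≤ 2 ^ t := Nat.le_pow_clog (by norm_num) k
  have main : ∀ H : SimpleGraph (Fin n → ZMod 2), Certified w H →
      ∃ K : Finset (Fin n → ZMod 2), k ≤ K.card ∧
        (H.IsClique (K : Set (Fin n → ZMod 2)) ∨ H.IsIndepSet (K : Set (Fin n → ZMod 2))) := by
    intro H hH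
    obtain ⟨K, J, _, _, hK, hJ, hKJ⟩ := cert_rec w H hH (2 * t) ⊤ 0 (by
      rw [finrank_top, Module.finrank_fin_fun]
      calc 2 * t * (w + 1) = 2 * (w + 1) * t := by ring
        _ ≤ n := hn)
    by_cases h1 : k ≤ K.card
    · exact ⟨K, h1, Or.inl hK⟩
    · by_cases h2 : k ≤ J.card
      · exact ⟨J, h2, Or.inr hJ⟩
      · exfalso
        push Not at h1 h2
        have h3 : K.card * J.card < 2 ^ (2 * t) := by
          have h4 : 2 ^ (2 * t) = 2 ^ t * 2 ^ t := by rw [← pow_add]; congr 1; ring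
          rw [h4]
          exact Nat.mul_lt_mul'' (lt_of_lt_of_le h1 hle) (lt_of_lt_of_le h2 hle)
        omega
  rcases hG with hG | hG
  · obtain ⟨K, h1, h2⟩ := main G hG
    exact HasHomog.of_card K h1 h2
  · obtain ⟨K, h1, h2⟩ := main Gᶜ hG
    refine HasHomog.of_card K h1 ?_
    rcases h2 with h2 | h2
    · right
      rwa [SimpleGraph.isClique_compl] at h2
    · left
      rwa [SimpleGraph.isIndepSet_compl] at h2

/-- Erdos' lower bound on a vertex set with `2 ^ n` elements -/
theorem erdos (n k : ℕ) (hk : 3 ≤ k) (hn : 2 * n + 1 ≤ k) (V : Type) [Fintype V]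
    (hV : Fintype.card V = 2 ^ n) : ∃ G : SimpleGraph V, ¬ HasHomog G k := by
  classical
  have hGs : TH521.AlgDeg.Gs k (k - 1 + 1) = k := by
    unfold TH521.AlgDeg.Gs
    rw [filter_true_of_mem, card_range]
    intro x hx
    have h1 : TH521.AlgDeg.pop x ≤ x := Nat.digit_sum_le 2 x
    have h2 := mem_range.1 hx
    omega
  have hcardB : Fintype.card (Fin n → ZMod 2) = 2 ^ n := by simp [ZMod.card]
  let b : Fin (2 ^ n) ≃ (Fin n → ZMod 2) := (Fintype.equivFinOfCardEq hcardB).symm
  let e : V ≃ Fin (2 ^ n) := Fintype.equivFinOfCardEq hV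
  obtain ⟨P, _, hPs, hP⟩ := TH521.AlgDeg.lower2 n k (k - 1) (2 * (k - 1)) le_rfl
    (by rw [hGs]; exact hk) (by rw [hGs]; exact hn) b b.injective
  let G : SimpleGraph V :=
    { Adj := fun x y => x ≠ y ∧ MvPolynomial.eval (Sum.elim (b (e x)) (b (e y))) P = 1
      symm := ⟨by
        rintro x y ⟨h1, h2⟩
        exact ⟨h1.symm, by rw [hPs]; exact h2⟩⟩
      loopless := ⟨fun x h => h.1 rfl⟩ }
  refine ⟨G, ?_⟩
  rintro ⟨K, hK, hh⟩
  have hKc : (K.map e.toEmbedding).card = k := by rw [card_map, hK]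
  have hmem : ∀ x ∈ K.map e.toEmbedding, e.symm x ∈ K := by
    intro x hx
    obtain ⟨z, hz, rfl⟩ := mem_map.1 hx
    simpa using hz
  rcases hh with h1 | h1
  · obtain ⟨x, hx, y, hy, hne, he⟩ := hP _ hKc 1
    have := h1 (hmem x hx) (hmem y hy) (fun h => hne (e.symm.injective h))
    have h3 := this.2
    rw [e.apply_symm_apply, e.apply_symm_apply] at h3
    exact he h3
  · obtain ⟨x, hx, y, hy, hne, he⟩ := hP _ hKc 0
    have hne' : e.symm x ≠ e.symm y := fun h => hne (e.symm.injective h)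
    have h2 := h1 (hmem x hx) (hmem y hy) hne'
    apply h2
    refine ⟨hne', ?_⟩
    rw [e.apply_symm_apply, e.apply_symm_apply]
    have h01 : ∀ a : ZMod 2, a ≠ 0 → a = 1 := by decide
    exact h01 _ he

/-- the weight of a pair of words -/
def wt {n : ℕ} (z : (Fin n → Bool) × (Fin n → Bool)) : ℕ :=
  ∑ i, ((z.1 i).toNat + (z.2 i).toNat)

theorem toNat_mono {a b : Bool} (h : a ≤ b) : a.toNat ≤ b.toNat := by
  revert a b; decide

theorem wt_strictMono {n : ℕ} : StrictMono (wt (n := n)) := by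
  intro z z' hz
  have hle : z ≤ z' := hz.le
  refine lt_of_le_of_ne (sum_le_sum fun i _ =>
    Nat.add_le_add (toNat_mono (hle.1 i)) (toNat_mono (hle.2 i))) ?_
  intro heq
  apply hz.ne
  have h1 : ∀ i ∈ (univ : Finset (Fin n)), (z.1 i).toNat + (z.2 i).toNat =
      (z'.1 i).toNat + (z'.2 i).toNat := by
    refine (sum_eq_sum_iff_of_le fun i _ =>
      Nat.add_le_add (toNat_mono (hle.1 i)) (toNat_mono (hle.2 i))).1 heq
  have hb : ∀ a b c d : Bool, a ≤ c → b ≤ d → a.toNat + b.toNat = c.toNat + d.toNat →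
      a = c ∧ b = d := by decide
  refine Prod.ext ?_ ?_
  · funext i
    exact (hb _ _ _ _ (hle.1 i) (hle.2 i) (h1 i (mem_univ _))).1
  · funext i
    exact (hb _ _ _ _ (hle.1 i) (hle.2 i) (h1 i (mem_univ _))).2

theorem wt_le {n : ℕ} (z : (Fin n → Bool) × (Fin n → Bool)) : wt z ≤ 2 * n := by
  unfold wt
  calc ∑ i, ((z.1 i).toNat + (z.2 i).toNat) ≤ ∑ _i : Fin n, 2 := by
        refine sum_le_sum fun i _ => ?_
        have h1 := Bool.toNat_le (z.1 i)
        have h2 := Bool.toNat_le (z.2 i)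
        omega
    _ = 2 * n := by simp [mul_comm]

theorem byNegations_all (n r : ℕ) (hr : 2 * n + 1 ≤ 2 ^ r) (G : SimpleGraph (Fin n → Bool)) :
    ByNegations n r G := by
  classical
  refine ⟨fun _ _ => True, fun z => decide (G.Adj z.1 z.2), fun _ _ _ => Or.inl trivial, ?_, ?_⟩
  · refine markov r wt wt_strictMono (fun z => ?_) _
    have := wt_le z
    omega
  · intro x y _ _
    simp

theorem byMonotone_all (n s : ℕ) (hs : 2 * n ≤ s) (G : SimpleGraph (Fin n → Bool)) :
    ByMonotone n s G := by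
  classical
  refine ⟨fun _ _ => True, fun j z => if h : (j : ℕ) < n then z.1 ⟨j, h⟩ else
    if h' : (j : ℕ) < 2 * n then z.2 ⟨j - n, by omega⟩ else true,
    fun _ _ _ => Or.inl trivial, ?_, ?_⟩
  · intro j z z' hz
    by_cases h : (j : ℕ) < n
    · simp only [h, dif_pos]
      exact hz.1 _
    · by_cases h' : (j : ℕ) < 2 * n
      · simp only [h, h', dif_pos, dif_neg, not_false_iff]
        exact hz.2 _
      · simp [h, h']
  · intro x y x' y' _ _ _ _ hf
    have hx : x = x' := by
      funext i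
      have h1 := hf ⟨i, by omega⟩
      have h2 : (i : ℕ) < n := i.2
      simpa [h2] using h1
    have hy : y = y' := by
      funext i
      have h1 := hf ⟨n + i, by omega⟩
      have h2 : ¬ (n + (i : ℕ) < n) := by omega
      have h3 : n + (i : ℕ) < 2 * n := by omega
      simp only [h2, h3, dif_pos, dif_neg, not_false_iff] at h1
      have h4 : (⟨n + (i : ℕ) - n, by omega⟩ : Fin n) = i := by
        apply Fin.ext; simp
      rwa [h4] at h1
    rw [hx, hy]

theorem certified_all (n w : ℕ) (hw : 2 * n ≤ w) (G : SimpleGraph (Fin n → ZMod 2)) :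
    Certified w G := by
  classical
  intro x y hxy
  refine ⟨fun j => if h : (j : ℕ) < n then
      (LinearMap.proj ⟨j, h⟩).comp (LinearMap.fst (ZMod 2) _ _) else
      if h' : (j : ℕ) < 2 * n then
        (LinearMap.proj ⟨j - n, by omega⟩).comp (LinearMap.snd (ZMod 2) _ _) else 0, ?_⟩
  intro x' y' _ hf
  have hx : x' = x := by
    funext i
    have h1 := hf ⟨i, by omega⟩
    have h2 : (i : ℕ) < n := i.2
    simpa [h2] using h1
  have hy : y' = y := by
    funext i
    have h1 := hf ⟨n + i, by omega⟩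
    have h2 : ¬ (n + (i : ℕ) < n) := by omega
    have h3 : n + (i : ℕ) < 2 * n := by omega
    simp only [h2, h3, dif_pos, dif_neg, not_false_iff] at h1
    have h4 : (⟨n + (i : ℕ) - n, by omega⟩ : Fin n) = i := by
      apply Fin.ext; simp
    rw [h4] at h1
    simpa using h1
  rw [hx, hy]
  exact hxy

/-- **Diagonal Ramsey numbers and circuit complexity.**

(1) NOT gates: colourings of `K_{2^n}` computed with `r` NOT gates have a homogeneous set of size `k`
if `2 ^ (r + 1) ⌈log₂ k⌉ ≤ n`; if `2 n + 1 ≤ 2 ^ r` and `2 n + 1 ≤ k`, some such colouring has none.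
(2) For `ε > 0` and large `k`: with at most `(1 - ε) log₂ k` NOT gates the logarithm of the Ramsey
number is at most `k ^ (1 - ε / 2)`; with `⌈log₂ k⌉` NOT gates it is at least `(k - 1) / 2` (base 2),
Erdős' bound for all colourings.
(3) The same for colourings which are functions of `s` monotone functions: `(s + 1) ⌈log₂ k⌉` versus
`min (s, k - 1) / 2`.
(4) The same for colourings such that the pairs of one of the colours have certificates of size `w`,
also if the certificates may use values of linear functionals over `F_2`: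
`2 (w + 1) ⌈log₂ k⌉` versus `min (w, k - 1) / 2`. -/
theorem result :
    (∀ n r k : ℕ, (2 ^ (r + 1) * Nat.clog 2 k ≤ n →
        ∀ G : SimpleGraph (Fin n → Bool), ByNegations n r G → HasHomog G k) ∧
      (3 ≤ k → 2 * n + 1 ≤ 2 ^ r → 2 * n + 1 ≤ k →
        ∃ G : SimpleGraph (Fin n → Bool), ByNegations n r G ∧ ¬ HasHomog G k)) ∧
    ((∀ ε : ℝ, 0 < ε → ∃ k0 : ℕ, ∀ k : ℕ, k0 ≤ k → ∀ n r : ℕ,
        (r : ℝ) ≤ (1 - ε) * (Real.log k / Real.log 2) → (k : ℝ) ^ (1 - ε / 2) ≤ n →
        ∀ G : SimpleGraph (Fin n → Bool), ByNegations n r G → HasHomog G k) ∧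
      (∀ k : ℕ, 3 ≤ k → ∀ n r : ℕ, Real.log k / Real.log 2 ≤ r → (n : ℝ) ≤ (k - 1) / 2 →
        ∃ G : SimpleGraph (Fin n → Bool), ByNegations n r G ∧ ¬ HasHomog G k)) ∧
    (∀ n s k : ℕ, ((s + 1) * Nat.clog 2 k ≤ n →
        ∀ G : SimpleGraph (Fin n → Bool), ByMonotone n s G → HasHomog G k) ∧
      (3 ≤ k → 2 * n ≤ s → 2 * n + 1 ≤ k →
        ∃ G : SimpleGraph (Fin n → Bool), ByMonotone n s G ∧ ¬ HasHomog G k)) ∧
    (∀ n w k : ℕ, (2 * (w + 1) * Nat.clog 2 k ≤ n →
        ∀ G : SimpleGraph (Fin n → ZMod 2), Certified w G ∨ Certified w Gᶜ → HasHomog G k) ∧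
      (3 ≤ k → 2 * n ≤ w → 2 * n + 1 ≤ k →
        ∃ G : SimpleGraph (Fin n → ZMod 2), Certified w G ∧ Certified w Gᶜ ∧
          ¬ HasHomog G k)) := by
  have hcardBool : ∀ n : ℕ, Fintype.card (Fin n → Bool) = 2 ^ n := fun n => by simp
  have hcardZ : ∀ n : ℕ, Fintype.card (Fin n → ZMod 2) = 2 ^ n := fun n => by simp [ZMod.card]
  have hl2 : 0 < Real.log 2 := Real.log_pos (by norm_num)
  have hl2' : 1 / 2 < Real.log 2 := by have := Real.log_two_gt_d9; linarith
  have hlow : ∀ n r k : ℕ, 3 ≤ k → 2 * n + 1 ≤ 2 ^ r → 2 * n + 1 ≤ k →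
      ∃ G : SimpleGraph (Fin n → Bool), ByNegations n r G ∧ ¬ HasHomog G k := by
    intro n r k hk hr hn
    obtain ⟨G, hG⟩ := erdos n k hk hn _ (hcardBool n)
    exact ⟨G, byNegations_all n r hr G, hG⟩
  refine ⟨fun n r k => ⟨fun h G hG => negations_upper n r k h G hG, hlow n r k⟩, ⟨?_, ?_⟩,
    fun n s k => ⟨fun h G hG => monotone_upper n s k h G hG, ?_⟩,
    fun n w k => ⟨fun h G hG => certified_upper n w k h G hG, ?_⟩⟩
  · intro ε hε
    obtain ⟨k1, hk1⟩ := TH521.AlgDeg.eventually_log_le 4 2 (ε / 2) (by positivity)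
    refine ⟨max 2 k1, fun k hk n r hr hn G hG => ?_⟩
    have hk2 : 2 ≤ k := (le_max_left _ _).trans hk
    have hkR : (2 : ℝ) ≤ k := by exact_mod_cast hk2
    have hk0 : (0 : ℝ) < k := by linarith
    have hL : 0 ≤ Real.log k := Real.log_nonneg (by linarith)
    apply negations_upper n r k _ G hG
    have h1 := hk1 k ((le_max_right _ _).trans hk)
    have h2 : ((2 : ℝ) ^ r) ≤ (k : ℝ) ^ (1 - ε) := by
      have e1 : (2 : ℝ) ^ r = Real.exp (r * Real.log 2) := by
        rw [← Real.log_pow, Real.exp_log (by positivity)]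
      rw [e1, Real.rpow_def_of_pos hk0]
      apply Real.exp_le_exp.2
      have h3 := mul_le_mul_of_nonneg_right hr hl2.le
      have h4 : (1 - ε) * (Real.log k / Real.log 2) * Real.log 2 = Real.log k * (1 - ε) := by
        field_simp
      linarith
    have h3 := TH521.AlgDeg.clog_le k hk2
    have h4 : Real.log k / Real.log 2 ≤ 2 * Real.log k := by
      rw [div_le_iff₀ hl2]; nlinarith
    have h5 : (2 : ℝ) ^ (r + 1) * Nat.clog 2 k ≤ n := by
      calc (2 : ℝ) ^ (r + 1) * Nat.clog 2 k = 2 ^ r * (2 * Nat.clog 2 k) := by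
            rw [pow_succ]; ring
        _ ≤ (k : ℝ) ^ (1 - ε) * (k : ℝ) ^ (ε / 2) := by
            apply mul_le_mul h2 _ (by positivity) (Real.rpow_nonneg hk0.le _)
            linarith
        _ = (k : ℝ) ^ (1 - ε / 2) := by
            rw [← Real.rpow_add hk0]; congr 1; ring
        _ ≤ n := hn
    exact_mod_cast h5
  · intro k hk n r hr hn
    have hkR : (3 : ℝ) ≤ k := by exact_mod_cast hk
    have hk0 : (0 : ℝ) < k := by linarith
    have h1 : 2 * n + 1 ≤ k := by
      have : (2 : ℝ) * n + 1 ≤ k := by linarith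
      exact_mod_cast this
    have h2 : k ≤ 2 ^ r := by
      have h3 : Real.log k ≤ r * Real.log 2 := by
        rw [div_le_iff₀ hl2] at hr; exact hr
      rw [← Real.log_pow] at h3
      have h4 := (Real.log_le_log_iff hk0 (by positivity)).1 h3
      exact_mod_cast h4
    exact hlow n r k hk (h1.trans h2) h1
  · intro hk hs hn
    obtain ⟨G, hG⟩ := erdos n k hk hn _ (hcardBool n)
    exact ⟨G, byMonotone_all n s hs G, hG⟩
  · intro hk hw hn
    obtain ⟨G, hG⟩ := erdos n k hk hn _ (hcardZ n)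
    exact ⟨G, certified_all n w hw G, certified_all n w hw Gᶜ, hG⟩

end Pool.Agent.Results.MP_28724c_co.CircuitComplexity
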