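import Pool.Agent.TH458.VC.Up
import Pool.Agent.TH458.VC.Low
import Pool.Agent.TH458.VC.Asy

set_option autoImplicit false

/-!
# Diagonal Ramsey numbers of colourings of bounded VC-dimension

A colouring of the edges of the complete graph on `n` vertices is a graph `G` on `Fin n` (red edges)
together with its complement (blue edges); it has no monochromatic `K_k` if `G` and `Gᶜ` are both
free of cliques with `k` vertices.  `Shat G S` says that the set `S` of vertices is shattered by the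
(red) neighbourhoods: for every `T ⊆ S` some vertex `v` is adjacent to all vertices of `T` and to
no vertex of `S \ T`.  `VCle G d` says that every shattered set has at most `d` elements, i.e. the
VC-dimension is at most `d`.
-/

namespace Pool.Agent.Results.MP_28724c_co.VCDimension

open Pool.Agent.TH458.VC

/-- `Shatters G S`: for every `T ⊆ S` there is a vertex `v` whose neighbours in `S` are exactly
the elements of `T`. -/
def Shatters {n : ℕ} (G : SimpleGraph (Fin n)) (S : Finset (Fin n)) : Prop :=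
  ∀ T ⊆ S, ∃ v, ∀ x ∈ S, (G.Adj v x ↔ x ∈ T)

/-- The VC-dimension of the family of neighbourhoods of the vertices of `G` is at most `d`. -/
def VCdimLe {n : ℕ} (G : SimpleGraph (Fin n)) (d : ℕ) : Prop :=
  ∀ S : Finset (Fin n), Shatters G S → S.card ≤ d

/-- The colouring of the edges of `K_n` with colour classes `G` and `Gᶜ` has no monochromatic
`K_k`. -/
def NoMono {n : ℕ} (G : SimpleGraph (Fin n)) (k : ℕ) : Prop :=
  G.CliqueFree k ∧ Gᶜ.CliqueFree k

/-- The diagonal Ramsey number `R(k,k)`. -/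
noncomputable def ramsey (k : ℕ) : ℕ :=
  sInf {n : ℕ | ∀ G : SimpleGraph (Fin n), ¬ NoMono G k}

theorem ramsey_eq (k : ℕ) : ramsey k = Pool.Agent.H818R2.Ram.R k k := by
  unfold ramsey Pool.Agent.H818R2.Ram.R Pool.Agent.H818R2.Ram.Arrows
  congr 1
  ext n
  simp only [Set.mem_setOf_eq]
  apply forall_congr'
  intro G
  unfold NoMono SimpleGraph.CliqueFree
  constructor
  · intro h
    by_contra hcon
    push Not at hcon
    exact h hcon
  · rintro (⟨s, hs⟩ | ⟨s, hs⟩) ⟨h1, h2⟩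
    · exact h1 s hs
    · exact h2 s hs

/-- **Main result.** -/
theorem result :
    -- (1) upper bound: VC-dimension at most `d` and no monochromatic `K_k` imply
    -- `log n ≤ C (d log (2 + k / d) + √(k log k))`
    (∃ C : ℝ, 0 < C ∧ ∀ (n k d : ℕ) (G : SimpleGraph (Fin n)), 1 ≤ n → 2 ≤ k → 1 ≤ d →
      NoMono G k → VCdimLe G d →
      Real.log n ≤ C * (d * Real.log (2 + (k : ℝ) / d) + Real.sqrt (k * Real.log k))) ∧
    -- (2) lower bound, of the same order for `√(k / log k) ≤ d ≤ k / 65536`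
    (∀ d k : ℕ, 10 ≤ d → 65536 * d ≤ k → ∃ (n : ℕ) (G : SimpleGraph (Fin n)),
      NoMono G k ∧ VCdimLe G d ∧ ((d : ℝ) / 32) * Real.log ((k : ℝ) / d) ≤ Real.log n) ∧
    -- (3) the growth rate of the diagonal Ramsey numbers of the colourings of VC-dimension at
    -- most `ε k` is at most `C ε log (2 / ε)`
    (∃ C : ℝ, 0 < C ∧ ∀ ε : ℝ, 0 < ε → ε ≤ 1 → ∃ K : ℕ, ∀ k : ℕ, K ≤ k →
      ∀ (n : ℕ) (G : SimpleGraph (Fin n)), 1 ≤ n → NoMono G k → VCdimLe G ⌊ε * k⌋₊ →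
        Real.log n / k ≤ C * (ε * Real.log (2 / ε))) ∧
    -- and at least `(1 / 64) ε log (1 / ε)` for `ε ≤ 1 / 65536`
    (∀ ε : ℝ, 0 < ε → ε ≤ 1 / 65536 → ∃ K : ℕ, ∀ k : ℕ, K ≤ k →
      ∃ (n : ℕ) (G : SimpleGraph (Fin n)), NoMono G k ∧ VCdimLe G ⌊ε * k⌋₊ ∧
        (1 / 64) * (ε * Real.log (1 / ε)) ≤ Real.log n / k) ∧
    -- (4) a colouring without monochromatic `K_k` on at least `exp (θ k)` vertices shatters a set
    -- with `c θ k / log (2 / θ)` elements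
    (∃ c : ℝ, 0 < c ∧ ∀ θ : ℝ, 0 < θ → θ ≤ 1 → ∃ K : ℕ, ∀ k : ℕ, K ≤ k →
      ∀ (n : ℕ) (G : SimpleGraph (Fin n)), NoMono G k → Real.exp (θ * k) ≤ n →
        ∃ S : Finset (Fin n), Shatters G S ∧ c * θ / Real.log (2 / θ) * k ≤ S.card) ∧
    -- (5) every extremal colouring (on `R(k,k) - 1` vertices) has VC-dimension of order `k`
    (∃ c : ℝ, 0 < c ∧ ∃ K : ℕ, ∀ k : ℕ, K ≤ k → ∀ (n : ℕ) (G : SimpleGraph (Fin n)),
      n + 1 = ramsey k → NoMono G k →
        (∃ S : Finset (Fin n), Shatters G S ∧ c * k ≤ S.card) ∧ VCdimLe G (2 * k)) := by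
  have hUP : S_UP := t_UP Pool.Agent.TH458.VCA2.t_ASY
  refine ⟨?_, ?_, ?_, ?_, ?_, ?_⟩
  · obtain ⟨C, hC, h⟩ := hUP
    exact ⟨C, hC, fun n k d G hn hk hd h1 h2 => h n k d G hn hk hd h1.1 h1.2 h2⟩
  · intro d k hd hk
    obtain ⟨n, G, h1, h2, h3, h4⟩ := lower d k hd hk
    exact ⟨n, G, ⟨h1, h2⟩, h3, h4⟩
  · obtain ⟨C, hC, h⟩ := rate_upper hUP
    refine ⟨C, hC, fun ε h1 h2 => ?_⟩
    obtain ⟨K, hK⟩ := h ε h1 h2
    exact ⟨K, fun k hk n G hn h3 h4 => hK k hk n G hn h3.1 h3.2 h4⟩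
  · intro ε h1 h2
    obtain ⟨K, hK⟩ := rate_lower ε h1 h2
    refine ⟨K, fun k hk => ?_⟩
    obtain ⟨n, G, h3, h4, h5, h6⟩ := hK k hk
    exact ⟨n, G, ⟨h3, h4⟩, h5, h6⟩
  · obtain ⟨c, hc, h⟩ := large_vc hUP
    refine ⟨c, hc, fun θ h1 h2 => ?_⟩
    obtain ⟨K, hK⟩ := h θ h1 h2
    exact ⟨K, fun k hk n G h3 h4 => hK k hk n G h3.1 h3.2 h4⟩
  · obtain ⟨c, hc, K, h⟩ := extremal hUP
    refine ⟨c, hc, K, fun k hk n G hn h1 => ?_⟩
    rw [ramsey_eq] at hn
    exact h k hk n G hn h1.1 h1.2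

end Pool.Agent.Results.MP_28724c_co.VCDimension
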